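import Mathlib
import Pool.Agent.Y380.UB.Final

/-!
# Colouring points with respect to unit balls: no finite number of colours suffices

In every dimension `d ≥ 3`, and for balls of radius exactly one, the value of `χ_big` is infinite.
Moreover all the points may be taken in an arbitrarily small neighbourhood of one point of the
boundary of one unit ball, and all the unit balls in question are arbitrarily small translates of
that ball; and there is one locally finite set which works for all numbers of colours and all `m`
at the same time.

Proof idea. Close to a point of an arc of a unit circle, the unit balls look (after an anisotropic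
rescaling) like the three-parameter family of regions `t² y² + c y + s < h + a t` of the space with
coordinates `(y, h, a)`. This family is invariant under all affine changes of the parameter `t`,
and its members are parabolic of width about `1 / |t|`. A set `Q` for `c` colours is moved such
that it uses parameters `t < 0` only and is in concave position for `t = 0`; close to the boundary
of a region with `t = 0` which isolates the point `q` of `Q` one puts a tiny copy of the set built
before, in which all parameters but the distinguished one `t = 0` are large in absolute value.
-/

set_option autoImplicit false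

namespace Pool.Agent.Results.MP_3d878b_co.UnitBalls

/-- Let `d ≥ 3`. (1) For all `c, m`, every unit vector `e` of `ℝ^d` and every `ε > 0` there is a
finite set `P` of points of norm less than `ε` such that for every colouring with `c` colours there
is a ball of radius one, with centre `z` at distance less than `ε` from `e` and with no point of `P`
on its boundary, which contains at least `m` points of `P`, all of the same colour.
(2) There is a locally finite set `P` such that for all `c, m` and every colouring with `c` colours
there is a ball of radius one, with no point of `P` on its boundary, which contains at least `m`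
(and finitely many) points of `P`, all of the same colour. -/
theorem result (d : ℕ) (hd : 3 ≤ d) :
    (∀ (c m : ℕ) (e : EuclideanSpace ℝ (Fin d)) (ε : ℝ), ‖e‖ = 1 → 0 < ε →
      ∃ P : Finset (EuclideanSpace ℝ (Fin d)), (∀ p ∈ P, ‖p‖ < ε) ∧
        ∀ col : EuclideanSpace ℝ (Fin d) → Fin c,
          ∃ z : EuclideanSpace ℝ (Fin d), ‖z - e‖ < ε ∧ (∀ p ∈ P, dist p z ≠ 1) ∧
            m ≤ {p : EuclideanSpace ℝ (Fin d) | p ∈ P ∧ dist p z ≤ 1}.ncard ∧
            ∃ k : Fin c, ∀ p ∈ P, dist p z ≤ 1 → col p = k) ∧
    (∃ P : Set (EuclideanSpace ℝ (Fin d)),
      (∀ R : ℝ, (P ∩ Metric.closedBall 0 R).Finite) ∧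
      ∀ (c m : ℕ) (col : EuclideanSpace ℝ (Fin d) → Fin c),
        ∃ z : EuclideanSpace ℝ (Fin d), (∀ p ∈ P, dist p z ≠ 1) ∧
          m ≤ {p : EuclideanSpace ℝ (Fin d) | p ∈ P ∧ dist p z ≤ 1}.ncard ∧
          ∃ k : Fin c, ∀ p ∈ P, dist p z ≤ 1 → col p = k) :=
  ⟨fun c m e ε he hε => Pool.Agent.Y380.UB.high d hd c m e he ε hε,
    Pool.Agent.Y380.UB.universal d hd⟩

end Pool.Agent.Results.MP_3d878b_co.UnitBalls
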